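import Mathlib

namespace Pool.Agent.Results.MP_6ac782_lc.SymmTrans
open Set Filter

/-- The members of `u ⊕ v`. -/
def oplus (u v : Ultrafilter ℤ) : Set (Set ℤ) := {A | {x | {y | x + y ∈ A} ∈ v} ∈ u}

/-- Divisibility-upward closed sets. -/
def UpClosed (A : Set ℤ) : Prop := ∀ a b, a ∈ A → a ∣ b → b ∈ A

/-- `u ≡_w v`: every upward closed member of `w` belongs to `u ⊕ (-v)`. -/
def Cong (w u v : Ultrafilter ℤ) : Prop :=
  ∀ A, UpClosed A → A ∈ w → A ∈ oplus u (v.map fun y => -y)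

lemma gaps (F : ℕ → ℕ) : ∃ P : Bool → Set ℕ, (∀ p, p ∈ P true ∨ p ∈ P false) ∧
    ∀ i n, ∃ N, n ≤ N ∧ ∀ p ∈ P i, p ≤ N ∨ F N < p := by
  let N : ℕ → ℕ := fun k => Nat.rec 0 (fun _ m => F m + m + 1) k
  have hs : ∀ k, N (k + 1) = F (N k) + N k + 1 := fun _ => rfl
  have hm : StrictMono N := strictMono_nat_of_lt_succ fun k => by rw [hs]; omega
  refine ⟨fun i => {p | ∀ k, k % 2 = i.toNat → p ≤ N k ∨ N (k + 1) < p}, fun p => ?_,
    fun i n => ⟨N (2 * n + i.toNat), (by omega : n ≤ 2 * n + i.toNat).trans (hm.le_apply), ?_⟩⟩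
  · by_contra hc
    simp only [mem_ofPred_eq, not_or, not_forall, not_le, not_lt] at hc
    obtain ⟨⟨k, hk, h1, h2⟩, l, hl, h3, h4⟩ := hc
    have : k < l + 1 := hm.lt_iff_lt.1 (h1.trans_le h4)
    have : l < k + 1 := hm.lt_iff_lt.1 (h3.trans_le h2)
    simp at hk hl
    omega
  · intro p hp
    have := hp (2 * n + i.toNat) (by cases i <;> simp)
    rw [hs] at this
    omega

lemma not_symm (w : Ultrafilter ℤ) (hw : {n : ℤ | {b | n ∣ b} ∈ w} ∉ w) :
    ∃ u v, Cong w u v ∧ ¬ Cong w v u := by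
  classical
  have hbig : ∀ n : ℕ, {a : ℤ | n < a.natAbs} ∈ w := fun n => by
    by_contra h
    have hf : {a : ℤ | n < a.natAbs}ᶜ.Finite :=
      (Set.finite_Icc (-(n : ℤ)) n).subset fun a ha => by
        simp only [mem_compl_iff, mem_ofPred_eq, mem_Icc] at ha ⊢; omega
    obtain ⟨a, -, rfl⟩ := Ultrafilter.eq_pure_of_finite_mem hf (Ultrafilter.compl_mem_iff_notMem.2 h)
    exact hw (by simp)
  let T : ℕ → Prop := fun p => p.Prime ∧ ∃ k : ℕ, {b : ℤ | (p : ℤ) ^ k ∣ b} ∉ w
  let e : ℕ → ℕ := fun p => if h : T p then Nat.find h.2 else 0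
  have he1 : ∀ p, T p → {b : ℤ | (p : ℤ) ^ e p ∣ b} ∉ w := fun p h => by
    simp only [e, dif_pos h]; exact Nat.find_spec h.2
  have he2 : ∀ p, T p → e p ≠ 0 := fun p h h0 => he1 p h (by rw [h0]; exact univ_mem' fun b => by simp)
  have hE : ∀ a : ℤ, a ≠ 0 → {b | a ∣ b} ∉ w → ∃ p, T p ∧ (p : ℤ) ^ e p ∣ a := by
    intro a ha h
    by_contra hc
    push Not at hc
    have h1 : ∀ d ∈ a.natAbs.divisors,
        {b : ℤ | (∃ p k : ℕ, p.Prime ∧ d = p ^ k) → (d : ℤ) ∣ b} ∈ w := by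
      intro d hd
      by_cases h2 : ∃ p k : ℕ, p.Prime ∧ d = p ^ k
      · obtain ⟨p, k, hp, rfl⟩ := h2
        by_contra h3
        have h4 : {b : ℤ | (p : ℤ) ^ k ∣ b} ∉ w := fun h5 =>
          h3 (mem_of_superset h5 fun b hb _ => by simpa using hb)
        have hT : T p := ⟨hp, k, h4⟩
        have : e p ≤ k := by simp only [e, dif_pos hT]; exact Nat.find_min' _ h4
        refine hc p hT ((pow_dvd_pow _ this).trans ?_)
        exact_mod_cast Int.natCast_dvd.2 (Nat.dvd_of_mem_divisors hd)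
      · exact univ_mem' fun b h => absurd h h2
    refine h (mem_of_superset ((biInter_finset_mem _).2 h1) fun b hb => ?_)
    simp only [mem_iInter, mem_ofPred_eq] at hb ⊢
    rw [← Int.natAbs_dvd_natAbs, Nat.dvd_iff_prime_pow_dvd_dvd]
    intro p k hp hd
    exact Int.natCast_dvd.1 (hb _ (Nat.mem_divisors.2 ⟨hd, by simpa using ha⟩) ⟨p, k, hp, rfl⟩)
  let Y : ℕ → ℕ := fun N => (N + 2).factorial * ∏ p ∈ Finset.range (N + 1), (p ^ e p)
  have hY2 : ∀ N, 2 ≤ Y N := fun N => by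
    have h1 : N + 2 ≤ (N + 2).factorial := Nat.self_le_factorial _
    have h2 : 0 < ∏ p ∈ Finset.range (N + 1), (p ^ e p) := Finset.prod_pos fun p _ => by
      by_cases h : T p
      · exact pow_pos h.1.pos _
      · simp [e, h]
    simp only [Y]; nlinarith
  obtain ⟨P, hP, hgap⟩ := gaps fun N => Y N + 2 * N + N ^ N.factorial + N ^ (N.factorial + 1)
  obtain ⟨i, hi⟩ : ∃ i, {a : ℤ | ∃ p ∈ P i, T p ∧ (p : ℤ) ^ e p ∣ a} ∈ w := by
    have : {a : ℤ | ∃ p ∈ P true, T p ∧ (p : ℤ) ^ e p ∣ a} ∪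
        {a : ℤ | ∃ p ∈ P false, T p ∧ (p : ℤ) ^ e p ∣ a} ∈ w := by
      filter_upwards [Ultrafilter.compl_mem_iff_notMem.2 hw, hbig 0] with a h1 h2
      obtain ⟨p, h3, h4⟩ := hE a (by omega) h1
      exact (hP p).imp (fun h => ⟨p, h, h3, h4⟩) fun h => ⟨p, h, h3, h4⟩
    rcases Ultrafilter.union_mem_iff.1 this with h | h
    exacts [⟨_, h⟩, ⟨_, h⟩]
  choose N hN hN' using hgap i
  let x : ℤ → ℤ := fun a => a * (a ^ ((N a.natAbs).factorial - 1) + 1 - a ^ (N a.natAbs).factorial)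
  refine ⟨w.map x, (hyperfilter ℕ).map fun n => (Y (N n) : ℤ), fun A hA hw' => ?_, fun h => ?_⟩
  · simp only [oplus, mem_ofPred_eq, Ultrafilter.mem_map, preimage_ofPred_eq]
    filter_upwards [hw', hbig 0] with a ha h0
    have : {n : ℕ | a.natAbs ≤ n} ∈ hyperfilter ℕ :=
      Nat.hyperfilter_le_atTop (mem_atTop _)
    filter_upwards [this] with n hn
    refine hA a _ ha (dvd_add (dvd_mul_right _ _) (dvd_neg.2 ?_))
    rw [Int.dvd_natCast]
    exact (Nat.dvd_factorial h0 (by have := hN n; omega)).mul_right _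
  · have := h _ (by rintro a b ⟨p, h1, h2, h3⟩ hab; exact ⟨p, h1, h2, h3.trans hab⟩) hi
    simp only [oplus, mem_ofPred_eq, Ultrafilter.mem_map, preimage_ofPred_eq] at this
    obtain ⟨n, hn⟩ := Ultrafilter.nonempty_of_mem this
    have h1 : ∀ p ∈ Finset.range (N n + 1), {a : ℤ | T p → ¬ (p : ℤ) ^ e p ∣ a} ∈ w := by
      intro p _
      by_cases h : T p
      · filter_upwards [Ultrafilter.compl_mem_iff_notMem.2 (he1 p h)] with a ha _ using ha
      · exact univ_mem' fun a h' => absurd h' h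
    obtain ⟨a, ⟨⟨p, hp, hT, hd⟩, ha⟩, hb⟩ := Ultrafilter.nonempty_of_mem
      (inter_mem (inter_mem hn ((biInter_finset_mem _).2 h1)) (hbig (Y (N n))))
    simp only [mem_iInter, mem_ofPred_eq, Finset.mem_range] at ha hb
    have hpp : Prime (p : ℤ) := Nat.prime_iff_prime_int.1 hT.1
    have hd1 : (p : ℤ) ∣ Y (N n) + -x a := (dvd_pow_self _ (he2 p hT)).trans hd
    have hy := hY2 (N n)
    have hM := hN a.natAbs
    set M := N a.natAbs with hMdef
    set L := M.factorial with hL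
    have hL0 : 0 < L := Nat.factorial_pos _
    have hL2 : 2 ≤ L := (by omega : 2 ≤ M).trans (Nat.self_le_factorial _)
    have hx : x a = a ^ L + a - a ^ (L + 1) := by
      simp only [x, ← hMdef, ← hL]
      obtain ⟨l, hl⟩ : ∃ l, L = l + 1 := ⟨L - 1, by omega⟩
      rw [hl, Nat.add_sub_cancel]; ring
    rcases hN' a.natAbs p hp with hpM | hpM
    · have hone : ¬ (p : ℤ) ∣ a → (p : ℤ) ∣ x a - 1 := fun hpa => by
        have := Fact.mk hT.1
        rw [← ZMod.intCast_zmod_eq_zero_iff_dvd] at hpa ⊢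
        obtain ⟨c, hc⟩ : p - 1 ∣ L := Nat.dvd_factorial (by have := hT.1.two_le; omega) (by omega)
        have : (a : ZMod p) ^ L = 1 := by rw [hc, pow_mul, ZMod.pow_card_sub_one_eq_one hpa, one_pow]
        rw [hx]; push_cast; rw [pow_succ, this]; ring
      rcases hN' n p hp with hpN | hpN
      · have h2 : (p : ℤ) ^ e p ∣ Y (N n) := by
          have : p ^ e p ∣ Y (N n) :=
            (Finset.dvd_prod_of_mem _ (Finset.mem_range.2 (by omega))).mul_left _
          exact_mod_cast this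
        have h3 : (p : ℤ) ^ e p ∣ x a := by simpa using (dvd_add_right h2).1 hd
        by_cases hpa : (p : ℤ) ∣ a
        · refine ha p (by omega) hT (IsCoprime.dvd_of_dvd_mul_right (IsCoprime.pow_left ?_) h3)
          rw [← hMdef, ← hL, hpp.irreducible.coprime_iff_not_dvd]
          intro h4
          have h5 := dvd_sub (dvd_add h4 (dvd_pow hpa hL0.ne')) (dvd_pow hpa (n := L - 1) (by omega))
          exact hpp.not_dvd_one (by simpa using h5)
        · have h5 := dvd_sub ((dvd_pow_self _ (he2 p hT)).trans h3) (hone hpa)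
          exact hpp.not_dvd_one (by simpa using h5)
      · have hlt : Y (N n) < p := lt_of_le_of_lt (by omega) hpN
        by_cases hpa : (p : ℤ) ∣ a
        · have h4 : (p : ℤ) ∣ Y (N n) := by
            have h6 : (p : ℤ) ∣ x a := hpa.mul_right _
            simpa using dvd_add hd1 h6
          have := Int.le_of_dvd (by omega) h4
          omega
        · have h4 : (p : ℤ) ∣ Y (N n) - 1 := by
            have := dvd_add hd1 (hone hpa)
            rwa [show (Y (N n) : ℤ) + -x a + (x a - 1) = Y (N n) - 1 by ring] at this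
          have := Int.le_of_dvd (by omega) h4
          omega
    · have h2 : (Y (N n) : ℤ) + -x a ≠ 0 := fun h0 => by
        have h3 : a ∣ Y (N n) := by
          rw [show (Y (N n) : ℤ) = x a by omega]; exact dvd_mul_right _ _
        have := Nat.le_of_dvd (by omega) (Int.dvd_natCast.1 h3)
        omega
      have h3 := Nat.le_of_dvd (Int.natAbs_pos.2 h2) (Int.natCast_dvd.1 hd1)
      have h4 : (a ^ L).natAbs ≤ M ^ L := by rw [Int.natAbs_pow]; exact Nat.pow_le_pow_left hM _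
      have h5 : (a ^ (L + 1)).natAbs ≤ M ^ (L + 1) := by
        rw [Int.natAbs_pow]; exact Nat.pow_le_pow_left hM _
      simp only [← hMdef, ← hL] at hpM
      rw [hx] at h3
      omega

theorem result (w : Ultrafilter ℤ) (hs : ∀ u v, Cong w u v → Cong w v u) :
    ∀ u v t, Cong w u v → Cong w v t → Cong w u t := by
  have hw : {n : ℤ | {b | n ∣ b} ∈ w} ∈ w := by
    by_contra h
    obtain ⟨u, v, h1, h2⟩ := not_symm w h
    exact h2 (hs u v h1)
  intro u v t h1 h2 A hA hAw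
  obtain ⟨n, hn, hnA⟩ := Ultrafilter.nonempty_of_mem (inter_mem hw hAw)
  have k1 := h1 _ (fun a b ha hab => dvd_trans ha hab) hn
  have k2 := h2 _ (fun a b ha hab => dvd_trans ha hab) hn
  simp only [oplus, mem_ofPred_eq, Ultrafilter.mem_map, preimage_ofPred_eq] at k1 k2 ⊢
  filter_upwards [k1] with x hx
  obtain ⟨y, h3, h4⟩ := Ultrafilter.nonempty_of_mem (inter_mem hx k2)
  filter_upwards [h4] with z hz
  refine hA n _ hnA ?_
  have := dvd_add h3 hz
  rwa [show x + -y + (y + -z) = x + -z by ring] at this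

end Pool.Agent.Results.MP_6ac782_lc.SymmTrans
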